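import Pool.Agent.Helper1.HK.Main
import Pool.Agent.Helper1.HK.Ideal
import Pool.Agent.Helper1.HK.NotCount
import Pool.Agent.Helper1.HK.Orbit

/-!
# A Borel equivalence relation below an orbit equivalence relation of an abelian Polish group,
not bireducible with any idealistic relation and not reducible to a countable one
-/

set_option autoImplicit false

open Pool.Agent.HK

namespace Pool.Agent.Results.MP_3874c1_lc.NotIdealistic

theorem result :
    ∃ (X : Type) (_ : MeasurableSpace X) (_ : StandardBorelSpace X) (E : X → X → Prop),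
      Equivalence E ∧ MeasurableSet {p : X × X | E p.1 p.2} ∧
      (¬ BorelRed (fun x y : ℕ → unitInterval => ∃ N : ℕ, ∀ n ≥ N, x n = y n) E) ∧
      (∃ (G : Type) (_ : TopologicalSpace G) (_ : CommGroup G) (_ : IsTopologicalGroup G)
        (_ : PolishSpace G) (Y : Type) (_ : TopologicalSpace Y) (_ : PolishSpace Y)
        (_ : MeasurableSpace Y) (_ : BorelSpace Y) (_ : MulAction G Y) (_ : ContinuousSMul G Y),
        BorelRed E (fun y y' : Y => ∃ g : G, y' = g • y)) ∧
      (∀ (Z : Type) [MeasurableSpace Z] [StandardBorelSpace Z] (F : Z → Z → Prop),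
        Equivalence F → (∀ z, {z' | F z z'}.Countable) → ¬ BorelRed E F) ∧
      (∀ (Y : Type) [MeasurableSpace Y] [StandardBorelSpace Y] (F : Y → Y → Prop),
        Equivalence F → Idealistic F → ¬ (BorelRed E F ∧ BorelRed F E)) ∧
      (∀ (G : Type) [TopologicalSpace G] [Group G] [IsTopologicalGroup G] [PolishSpace G]
        (Y : Type) [TopologicalSpace Y] [PolishSpace Y] [MeasurableSpace Y] [BorelSpace Y]
        [MulAction G Y] [ContinuousSMul G Y],
        ¬ (BorelRed E (fun y y' : Y => ∃ g : G, y' = g • y) ∧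
          BorelRed (fun y y' : Y => ∃ g : G, y' = g • y) E)) := by
  obtain ⟨φ, hφ, hnb⟩ := exists_nonBorel_range
  refine ⟨(ℕ → ℕ) × P, inferInstance, inferInstance, EE φ, EE_equivalence φ,
    measurableSet_E φ hφ.measurable, ?_, red_abelian_orbit φ hφ, ?_, ?_, ?_⟩
  · exact not_E1_le φ hφ.measurable
  · intro Z _ _ F hF hc
    exact not_red_countable φ hφ F hF hc
  · intro Y _ _ F hF hI
    exact not_bireducible_ideal φ hφ hnb F hF hI
  · intro G _ _ _ _ Y _ _ _ _ _ _
    refine not_bireducible_ideal φ hφ hnb _ ?_ (orbit_idealistic G Y)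
    refine ⟨fun y => ⟨1, (one_smul _ _).symm⟩, ?_, ?_⟩
    · rintro y y' ⟨g, rfl⟩
      exact ⟨g⁻¹, (inv_smul_smul g y).symm⟩
    · rintro y y' y'' ⟨g, rfl⟩ ⟨h, rfl⟩
      exact ⟨h * g, (mul_smul h g y).symm⟩

end Pool.Agent.Results.MP_3874c1_lc.NotIdealistic
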